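import Mathlib

/-!
# The free group of rank two has infinite commutator width

The Brooks counting quasimorphism of the word `x y`.
-/

set_option autoImplicit false

namespace Pool.Agent.Y26.FreeCW

abbrev Lt : Type := Fin 2 × Bool

/-- local contribution of two consecutive letters -/
def f (a b : Lt) : ℤ :=
  if a = (0, true) ∧ b = (1, true) then 1 else if a = (1, false) ∧ b = (0, false) then -1 else 0

/-- the counting function on words -/
def c : List Lt → ℤ
  | [] => 0
  | [_] => 0
  | a :: b :: l => f a b + c (b :: l)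

lemma f_inv : ∀ a b : Lt, f (b.1, !b.2) (a.1, !a.2) = - f a b := by decide

lemma f_abs : ∀ a b : Lt, |f a b| ≤ 1 := by decide

lemma c_append_cons (u : List Lt) (a b : Lt) (v : List Lt) :
    c (u ++ [a] ++ b :: v) = c (u ++ [a]) + f a b + c (b :: v) := by
  induction u with
  | nil => simp [c]
  | cons x u ih =>
    cases u with
    | nil => simp [c]; ring
    | cons y u =>
      simp only [List.cons_append, c] at ih ⊢
      rw [ih]; ring

lemma c_append (u v : List Lt) : |c (u ++ v) - c u - c v| ≤ 1 := by
  rcases List.eq_nil_or_concat u with rfl | ⟨u, a, rfl⟩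
  · simp [c]
  · cases v with
    | nil => simp [c]
    | cons b v =>
      rw [List.concat_eq_append, c_append_cons]
      have := f_abs a b
      convert this using 2
      ring

lemma c_invRev (w : List Lt) : c (FreeGroup.invRev w) = - c w := by
  induction w with
  | nil => simp [c, FreeGroup.invRev]
  | cons a w ih =>
    cases w with
    | nil => simp [c, FreeGroup.invRev]
    | cons b w =>
      have h1 : FreeGroup.invRev (a :: b :: w) =
          FreeGroup.invRev w ++ [(b.1, !b.2)] ++ [(a.1, !a.2)] := by
        simp [FreeGroup.invRev]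
      have h2 : FreeGroup.invRev (b :: w) = FreeGroup.invRev w ++ [(b.1, !b.2)] := by
        simp [FreeGroup.invRev]
      rw [h1, c_append_cons, ← h2, ih, f_inv]
      simp [c]

/-- cancellation in a product of two reduced words -/
lemma cancel (u v : List Lt) (hu : FreeGroup.IsReduced u) (hv : FreeGroup.IsReduced v) :
    ∃ p s q : List Lt, u = p ++ s ∧ v = FreeGroup.invRev s ++ q ∧ FreeGroup.IsReduced (p ++ q) := by
  induction u using List.reverseRecOn generalizing v with
  | nil => exact ⟨[], [], v, rfl, by simp [FreeGroup.invRev], hv⟩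
  | append_singleton u a ih =>
    cases v with
    | nil => exact ⟨u ++ [a], [], [], by simp, by simp [FreeGroup.invRev], by simpa using hu⟩
    | cons b v =>
      by_cases hab : a.1 = b.1 → a.2 = b.2
      · refine ⟨u ++ [a], [], b :: v, by simp, by simp [FreeGroup.invRev], ?_⟩
        unfold FreeGroup.IsReduced at hu hv ⊢
        rw [List.isChain_append]
        refine ⟨hu, hv, ?_⟩
        intro x hx y hy
        simp only [List.getLast?_append, List.getLast?_singleton, Option.some_or,
          Option.mem_def, Option.some.injEq, List.head?_cons] at hx hy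
        subst hx hy
        exact hab
      · have hb : b = (a.1, !a.2) := by
          push Not at hab
          obtain ⟨h1, h2⟩ := hab
          obtain ⟨b1, b2⟩ := b
          simp only at h1 h2
          rw [h1]
          cases h : a.2 <;> cases b2 <;> simp_all
        subst hb
        have hu' : FreeGroup.IsReduced u := by
          unfold FreeGroup.IsReduced at hu ⊢
          rw [List.isChain_append] at hu
          exact hu.1
        have hv' : FreeGroup.IsReduced v := by
          unfold FreeGroup.IsReduced at hv ⊢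
          exact hv.tail
        obtain ⟨p, s, q, rfl, rfl, h⟩ := ih v hu' hv'
        exact ⟨p, s ++ [a], q, by simp, by simp [FreeGroup.invRev], h⟩

/-- the counting quasimorphism -/
def q (g : FreeGroup (Fin 2)) : ℤ := c g.toWord

lemma q_inv (g : FreeGroup (Fin 2)) : q g⁻¹ = - q g := by
  unfold q
  rw [FreeGroup.toWord_inv, c_invRev]

lemma q_mul (g h : FreeGroup (Fin 2)) : |q (g * h) - q g - q h| ≤ 3 := by
  obtain ⟨p, s, r, h1, h2, h3⟩ := cancel g.toWord h.toWord FreeGroup.isReduced_toWord
    FreeGroup.isReduced_toWord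
  have h4 : (g * h).toWord = p ++ r := by
    have : g * h = FreeGroup.mk (p ++ r) := by
      rw [← FreeGroup.mk_toWord (x := g), ← FreeGroup.mk_toWord (x := h), h1, h2,
        ← FreeGroup.mul_mk, ← FreeGroup.mul_mk, ← FreeGroup.mul_mk, ← FreeGroup.inv_mk]
      group
    rw [this, FreeGroup.toWord_mk, h3.reduce_eq]
  unfold q
  rw [h4, h1, h2]
  have e1 := c_append p r
  have e2 := c_append p s
  have e3 := c_append (FreeGroup.invRev s) r
  rw [c_invRev] at e3
  rw [abs_le] at *
  constructor <;> linarith [e1.1, e1.2, e2.1, e2.2, e3.1, e3.2]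

lemma q_comm (a b : FreeGroup (Fin 2)) : |q (a * b * a⁻¹ * b⁻¹)| ≤ 9 := by
  have h1 := q_mul (a * b * a⁻¹) b⁻¹
  have h2 := q_mul (a * b) a⁻¹
  have h3 := q_mul a b
  rw [q_inv] at h1 h2
  rw [abs_le] at *
  constructor <;> linarith [h1.1, h1.2, h2.1, h2.2, h3.1, h3.2]

lemma q_one : q 1 = 0 := by
  simp [q, c]

lemma q_prod (l : List (FreeGroup (Fin 2))) (hl : ∀ x ∈ l, x ∈ commutatorSet (FreeGroup (Fin 2))) :
    |q l.prod| ≤ 12 * l.length := by
  induction l with
  | nil => simp [q_one]
  | cons x l ih =>
    have h1 := ih (fun y hy => hl y (List.mem_cons_of_mem _ hy))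
    obtain ⟨a, b, rfl⟩ := hl x List.mem_cons_self
    rw [commutatorElement_def] at *
    have h2 := q_comm a b
    have h3 := q_mul (a * b * a⁻¹ * b⁻¹) l.prod
    rw [List.prod_cons, List.length_cons]
    push_cast
    rw [abs_le] at *
    constructor <;> linarith [h1.1, h1.2, h2.1, h2.2, h3.1, h3.2]

/-- the word `(x y x⁻¹ y⁻¹) ^ n` -/
def W : ℕ → List Lt
  | 0 => []
  | n + 1 => (0, true) :: (1, true) :: (0, false) :: (1, false) :: W n

lemma W_head (n : ℕ) : ∀ y ∈ (W n).head?, y = (0, true) := by
  cases n <;> simp [W]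

lemma W_red (n : ℕ) : FreeGroup.IsReduced (W n) := by
  induction n with
  | zero => simp [W, FreeGroup.IsReduced]
  | succ n ih =>
    unfold FreeGroup.IsReduced at ih ⊢
    simp only [W]
    rw [List.isChain_cons_cons, List.isChain_cons_cons, List.isChain_cons_cons]
    refine ⟨by decide, by decide, by decide, ?_⟩
    rw [List.isChain_cons]
    refine ⟨?_, ih⟩
    intro y hy
    rw [W_head n y hy]
    decide

lemma c_W (n : ℕ) : c (W n) = n := by
  induction n with
  | zero => simp [W, c]
  | succ n ih =>
    have h : c ((1, false) :: W n) = c (W n) := by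
      cases n with
      | zero => simp [W, c]
      | succ n => simp [W, c, f]
    simp only [W, c]
    rw [h, ih]
    simp [f]
    ring

lemma mk_W (n : ℕ) : FreeGroup.mk (W n) =
    (FreeGroup.of 0 * FreeGroup.of 1 * (FreeGroup.of 0)⁻¹ * (FreeGroup.of 1)⁻¹) ^ n := by
  induction n with
  | zero => rfl
  | succ n ih =>
    rw [pow_succ', ← ih]
    rfl

lemma q_pow (n : ℕ) :
    q ((FreeGroup.of 0 * FreeGroup.of 1 * (FreeGroup.of 0)⁻¹ * (FreeGroup.of 1)⁻¹) ^ n) = n := by
  rw [← mk_W]
  unfold q
  rw [FreeGroup.toWord_mk, (W_red n).reduce_eq, c_W]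

/-- The free group of rank two has infinite commutator width. -/
theorem infinite_width (n : ℕ) : ∃ g ∈ commutator (FreeGroup (Fin 2)),
    ∀ l : List (FreeGroup (Fin 2)), l.length ≤ n →
      (∀ x ∈ l, x ∈ commutatorSet (FreeGroup (Fin 2))) → l.prod ≠ g := by
  refine ⟨(FreeGroup.of 0 * FreeGroup.of 1 * (FreeGroup.of 0)⁻¹ * (FreeGroup.of 1)⁻¹) ^ (12 * n + 1),
    ?_, ?_⟩
  · apply pow_mem
    rw [← commutatorElement_def, commutator_def]
    exact Subgroup.commutator_mem_commutator (Subgroup.mem_top _) (Subgroup.mem_top _)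
  · intro l hl hc h
    have h1 := q_prod l hc
    rw [h, q_pow] at h1
    have h2 : (0 : ℤ) ≤ ((12 * n + 1 : ℕ) : ℤ) := by positivity
    rw [abs_of_nonneg h2] at h1
    push_cast at h1
    have h3 : (l.length : ℤ) ≤ n := by exact_mod_cast hl
    linarith

end Pool.Agent.Y26.FreeCW
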