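import Mathlib

/-!
# Palindromes over a redundant generating set

If `A` generates the group `G` and `X` contains `A` and all products of two elements of `A`, then
every element of the commutator subgroup of `G` is represented by a palindromic word over `X`.
(The same argument as in the starting result `MP_738270_al.SomeGenSet`, here for words that are
lists of elements of the group.)
-/

set_option autoImplicit false

namespace Pool.Agent.Y26.PalGen

variable {G : Type} [Group G]

/-- all letters of `w` lie in `X` or are inverses of elements of `X` -/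
def Over (X : Set G) (w : List G) : Prop := ∀ x ∈ w, x ∈ X ∨ x⁻¹ ∈ X

lemma Over.append {X : Set G} {v w : List G} (hv : Over X v) (hw : Over X w) :
    Over X (v ++ w) := by
  intro x hx
  rcases List.mem_append.1 hx with h | h
  · exact hv x h
  · exact hw x h

lemma Over.reverse {X : Set G} {v : List G} (hv : Over X v) : Over X v.reverse :=
  fun x hx => hv x (List.mem_reverse.1 hx)

lemma Over.mapInv {X : Set G} {v : List G} (hv : Over X v) : Over X (v.map fun x => x⁻¹) := by
  intro x hx
  rw [List.mem_map] at hx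
  obtain ⟨y, hy, rfl⟩ := hx
  rcases hv y hy with h | h
  · right; rwa [inv_inv]
  · left; exact h

/-- The values of reversed relators form a subgroup. -/
def relSub (X : Set G) : Subgroup G where
  carrier := {g | ∃ w, Over X w ∧ w.prod = 1 ∧ w.reverse.prod = g}
  one_mem' := ⟨[], by simp [Over], rfl, rfl⟩
  mul_mem' := by
    rintro _ _ ⟨v, hv0, hv, rfl⟩ ⟨w, hw0, hw, rfl⟩
    refine ⟨w ++ v, hw0.append hv0, by rw [List.prod_append, hv, hw, one_mul], ?_⟩
    rw [List.reverse_append, List.prod_append]
  inv_mem' := by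
    rintro _ ⟨w, hw0, hw, rfl⟩
    refine ⟨(w.map fun x => x⁻¹).reverse, hw0.mapInv.reverse, ?_, ?_⟩
    · rw [← List.prod_inv_reverse, hw, inv_one]
    · rw [List.prod_inv_reverse, ← List.map_reverse, ← List.map_reverse, List.reverse_reverse]

lemma mem_relSub {X : Set G} {g : G} :
    g ∈ relSub X ↔ ∃ w, Over X w ∧ w.prod = 1 ∧ w.reverse.prod = g := Iff.rfl

lemma exists_word {X : Set G} (hX : Subgroup.closure X = ⊤) (g : G) :
    ∃ w, Over X w ∧ w.prod = g := by
  have hg : g ∈ Subgroup.closure X := by rw [hX]; trivial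
  induction hg using Subgroup.closure_induction with
  | mem x hx => exact ⟨[x], by simp [Over, hx], by simp⟩
  | one => exact ⟨[], by simp [Over], rfl⟩
  | mul x y _ _ ihx ihy =>
    obtain ⟨v, hv, rfl⟩ := ihx
    obtain ⟨w, hw, rfl⟩ := ihy
    exact ⟨v ++ w, hv.append hw, List.prod_append⟩
  | inv x _ ih =>
    obtain ⟨v, hv, rfl⟩ := ih
    exact ⟨(v.map fun x => x⁻¹).reverse, hv.mapInv.reverse, (List.prod_inv_reverse v).symm⟩

lemma relSub_normal {X : Set G} (hX : Subgroup.closure X = ⊤) : (relSub X).Normal := by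
  constructor
  rintro _ ⟨w, hw0, hw, rfl⟩ g
  obtain ⟨u, hu, rfl⟩ := exists_word hX g
  refine ⟨(u.map fun x => x⁻¹) ++ w ++ u.reverse, (hu.mapInv.append hw0).append hu.reverse, ?_, ?_⟩
  · rw [List.prod_append, List.prod_append, hw]
    have : (u.map fun x => x⁻¹).prod = (u.reverse.prod)⁻¹ := by
      rw [List.prod_inv_reverse, List.map_reverse, List.reverse_reverse]
    rw [this]; group
  · rw [List.reverse_append, List.reverse_append, List.reverse_reverse, List.prod_append,
      List.prod_append, ← List.prod_inv_reverse, mul_assoc]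

/-- Every element of the commutator subgroup is the value of a palindrome. -/
lemma commutator_le {A X : Set G} (hA : Subgroup.closure A = ⊤) (hAX : A ⊆ X)
    (hAA : ∀ a ∈ A, ∀ b ∈ A, a * b ∈ X ∨ b * a ∈ X ∨ a * b = b * a) :
    commutator G ≤ relSub X := by
  have hX : Subgroup.closure X = ⊤ := by
    rw [eq_top_iff, ← hA]
    exact Subgroup.closure_mono hAX
  have hN := relSub_normal hX
  set N := relSub X with hNdef
  have key0 : ∀ a ∈ A, ∀ b ∈ A, a * b ∈ X → (QuotientGroup.mk a : G ⧸ N) * QuotientGroup.mk b =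
      QuotientGroup.mk b * QuotientGroup.mk a := by
    intro a ha b hb hab
    rw [← QuotientGroup.mk_mul, ← QuotientGroup.mk_mul, QuotientGroup.eq, hNdef, mem_relSub]
    refine ⟨[a, b, (a * b)⁻¹], ?_, ?_, ?_⟩
    · intro x hx
      simp only [List.mem_cons, List.not_mem_nil, or_false] at hx
      rcases hx with rfl | rfl | rfl
      · exact Or.inl (hAX ha)
      · exact Or.inl (hAX hb)
      · right; rwa [inv_inv]
    · simp
    · simp [mul_assoc]
  have key : ∀ a ∈ A, ∀ b ∈ A, (QuotientGroup.mk a : G ⧸ N) * QuotientGroup.mk b =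
      QuotientGroup.mk b * QuotientGroup.mk a := by
    intro a ha b hb
    rcases hAA a ha b hb with h | h | h
    · exact key0 a ha b hb h
    · exact (key0 b hb a ha h).symm
    · rw [← QuotientGroup.mk_mul, h, QuotientGroup.mk_mul]
  have hS : Subgroup.closure ((QuotientGroup.mk' N) '' A) = ⊤ := by
    rw [← MonoidHom.map_closure, hA, ← MonoidHom.range_eq_map, MonoidHom.range_eq_top]
    exact QuotientGroup.mk'_surjective N
  have h1 : ((QuotientGroup.mk' N) '' A) ⊆ Subgroup.centralizer ((QuotientGroup.mk' N) '' A) := by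
    rintro _ ⟨a, ha, rfl⟩
    rw [SetLike.mem_coe, Subgroup.mem_centralizer_iff]
    rintro _ ⟨b, hb, rfl⟩
    exact key b hb a ha
  have h2 : (⊤ : Subgroup (G ⧸ N)) ≤ Subgroup.centralizer ((QuotientGroup.mk' N) '' A) := by
    rw [← hS]; exact (Subgroup.closure_le _).2 h1
  have h3 : ((QuotientGroup.mk' N) '' A) ⊆ Subgroup.center (G ⧸ N) := by
    intro a ha
    rw [SetLike.mem_coe, Subgroup.mem_center_iff]
    intro g
    exact ((Subgroup.mem_centralizer_iff.1 (h2 (Subgroup.mem_top g))) a ha).symm
  have h4 : (⊤ : Subgroup (G ⧸ N)) ≤ Subgroup.center (G ⧸ N) := by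
    rw [← hS]; exact (Subgroup.closure_le _).2 h3
  rw [commutator_def, Subgroup.commutator_le]
  intro x _ y _
  have h5 := Subgroup.mem_center_iff.1 (h4 (Subgroup.mem_top (QuotientGroup.mk x : G ⧸ N)))
    (QuotientGroup.mk y)
  rw [← QuotientGroup.eq_one_iff]
  rw [commutatorElement_def, QuotientGroup.mk_mul, QuotientGroup.mk_mul, QuotientGroup.mk_mul,
    QuotientGroup.mk_inv, QuotientGroup.mk_inv, ← h5]
  group

/-- a power of a letter is a palindrome -/
lemma zpow_pal {X : Set G} {s : G} (hs : s ∈ X) (k : ℤ) :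
    ∃ w : List G, w.reverse = w ∧ Over X w ∧ w.prod = s ^ k := by
  obtain ⟨n, rfl | rfl⟩ := k.eq_nat_or_neg
  · refine ⟨List.replicate n s, by simp, ?_, by simp⟩
    intro x hx
    rw [List.mem_replicate] at hx
    left; rw [hx.2]; exact hs
  · refine ⟨List.replicate n s⁻¹, by simp, ?_, by simp⟩
    intro x hx
    rw [List.mem_replicate] at hx
    right; rw [hx.2, inv_inv]; exact hs

/-- a value of a reversed relator is a palindrome -/
lemma relSub_pal {X : Set G} {g : G} (hg : g ∈ relSub X) :
    ∃ w : List G, w.reverse = w ∧ Over X w ∧ w.prod = g := by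
  obtain ⟨w, hw0, hw, rfl⟩ := hg
  refine ⟨w ++ w.reverse, by simp, hw0.append hw0.reverse, ?_⟩
  rw [List.prod_append, hw, one_mul]

end Pool.Agent.Y26.PalGen
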